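import Pool.Agent.Helper76.FT.GoalsB

set_option autoImplicit false

namespace Pool.Agent.Helper61.FT

open Complex Set Filter Topology

/-- Taylor's formula with remainder for a sequence of iterated derivatives. -/
lemma taylor_aux (A : ℕ → ℝ → ℂ) (D : ℝ) (hD : 0 < D)
    (hA : ∀ n x, HasDerivAt (A n) (A (n + 1) x) x)
    (hb : ∀ n x, ‖A n x‖ ≤ D ^ (n + 1) * n.factorial) (x y : ℝ) (n : ℕ) :
    ‖A 0 (x + y) - ∑ k ∈ Finset.range (n + 1), ((y ^ k / k.factorial : ℝ) : ℂ) * A k x‖
      ≤ D ^ (n + 2) * (n + 1) * |y| ^ (n + 1) := by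
  -- auxiliary function
  set P : ℝ → ℂ := fun s => ∑ k ∈ Finset.range (n + 1),
    (((y - s) ^ k / k.factorial : ℝ) : ℂ) * A k (x + s) with hP
  have hterm : ∀ (m : ℕ) (s : ℝ), HasDerivAt (fun s : ℝ => ∑ k ∈ Finset.range (m + 1),
      (((y - s) ^ k / k.factorial : ℝ) : ℂ) * A k (x + s))
      ((((y - s) ^ m / m.factorial : ℝ) : ℂ) * A (m + 1) (x + s)) s := by
    intro m s
    induction m with
    | zero =>
      simp only [Finset.range_one, Finset.sum_singleton, pow_zero, Nat.factorial, Nat.cast_one,
        div_one, Complex.ofReal_one, one_mul, zero_add]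
      have := (hA 0 (x + s)).comp_const_add x s
      simpa using this
    | succ m ih =>
      have h1 : HasDerivAt (fun s : ℝ => (((y - s) ^ (m + 1) / (m + 1).factorial : ℝ) : ℂ))
          ((-((y - s) ^ m / m.factorial) : ℝ) : ℂ) s := by
        have h2 : HasDerivAt (fun s : ℝ => ((y - s) ^ (m + 1) / (m + 1).factorial : ℝ))
            (-((y - s) ^ m / m.factorial)) s := by
          have h3 : HasDerivAt (fun s : ℝ => y - s) (-1) s := by
            simpa using (hasDerivAt_id s).const_sub y
          have h4 := (h3.pow (m + 1)).div_const ((m + 1).factorial : ℝ)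
          refine h4.congr_deriv ?_
          have h5 : ((m + 1).factorial : ℝ) = (m + 1) * m.factorial := by
            push_cast [Nat.factorial_succ]; ring
          rw [h5]
          have h6 : (m.factorial : ℝ) ≠ 0 := by positivity
          have h7 : (m : ℝ) + 1 ≠ 0 := by positivity
          simp only [Nat.add_sub_cancel]
          push_cast
          field_simp
        exact h2.ofReal_comp
      have h8 : HasDerivAt (fun s : ℝ => A (m + 1) (x + s)) (A (m + 2) (x + s)) s :=
        (hA (m + 1) (x + s)).comp_const_add x s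
      have h9 := ih.add (h1.mul h8)
      simp_rw [Finset.sum_range_succ _ (m + 1)]
      refine h9.congr_deriv ?_
      push_cast
      ring
  have hy : P y = A 0 (x + y) := by
    simp only [hP]
    rw [Finset.sum_eq_single 0]
    · simp
    · intro b _ hb0
      simp [hb0]
    · intro h
      simp at h
  have h0 : P 0 = ∑ k ∈ Finset.range (n + 1), ((y ^ k / k.factorial : ℝ) : ℂ) * A k x := by
    simp [hP]
  rw [← hy, ← h0]
  have hbd : ∀ s ∈ uIcc 0 y, ‖(((y - s) ^ n / n.factorial : ℝ) : ℂ) * A (n + 1) (x + s)‖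
      ≤ D ^ (n + 2) * (n + 1) * |y| ^ n := by
    intro s hs
    have hys : |y - s| ≤ |y| := by
      rcases le_total 0 y with h | h
      · rw [uIcc_of_le h] at hs
        rw [abs_of_nonneg h, abs_of_nonneg (by linarith [hs.2])]
        linarith [hs.1]
      · rw [uIcc_of_ge h] at hs
        rw [abs_of_nonpos h, abs_of_nonpos (by linarith [hs.1])]
        linarith [hs.2]
    rw [norm_mul, Complex.norm_real, norm_div, norm_pow, Real.norm_eq_abs]
    have hf : (0:ℝ) < n.factorial := by positivity
    have h1 := hb (n + 1) (x + s)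
    have h2 : |y - s| ^ n ≤ |y| ^ n := pow_le_pow_left₀ (abs_nonneg _) hys n
    have h3 : ‖(n.factorial : ℝ)‖ = n.factorial := by
      rw [Real.norm_eq_abs, abs_of_pos hf]
    rw [h3]
    calc |y - s| ^ n / n.factorial * ‖A (n + 1) (x + s)‖
        ≤ |y| ^ n / n.factorial * (D ^ (n + 1 + 1) * (n + 1).factorial) := by
          gcongr
      _ = D ^ (n + 2) * (n + 1) * |y| ^ n := by
          rw [Nat.factorial_succ]
          push_cast
          field_simp
  have key := (convex_uIcc (0:ℝ) y).norm_image_sub_le_of_norm_hasDerivWithin_le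
    (f := P) (f' := fun s => (((y - s) ^ n / n.factorial : ℝ) : ℂ) * A (n + 1) (x + s))
    (C := D ^ (n + 2) * (n + 1) * |y| ^ n)
    (fun s _ => (hterm n s).hasDerivWithinAt) hbd (x := 0) (y := y) left_mem_uIcc right_mem_uIcc
  refine key.trans (le_of_eq ?_)
  rw [sub_zero, Real.norm_eq_abs]
  ring

theorem ft_fac : Pool.Agent.Helper76.FT.GFac := by
  intro u A C hu hA hb
  -- enlarge the constant
  have hC : 0 ≤ C := by
    have := hb 0 0
    simp at this
    exact (norm_nonneg _).trans this
  set D : ℝ := C + 1 with hDdef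
  have hD : 0 < D := by positivity
  have hb' : ∀ n x, ‖A n x‖ ≤ D ^ (n + 1) * n.factorial := by
    intro n x
    refine (hb n x).trans ?_
    gcongr
    linarith
  intro x _
  subst hu
  let p : FormalMultilinearSeries ℝ ℝ ℂ := fun n =>
    ContinuousMultilinearMap.mkPiRing ℝ (Fin n) (((1 / n.factorial : ℝ) : ℂ) * A n x)
  have hp : ∀ n, p.coeff n = ((1 / n.factorial : ℝ) : ℂ) * A n x := by
    intro n
    simp [p, FormalMultilinearSeries.coeff]
  refine ⟨p, ?_⟩
  rw [hasFPowerSeriesAt_iff]
  have hr : (0:ℝ) < 1 / (2 * D) := by positivity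
  filter_upwards [Metric.ball_mem_nhds (0:ℝ) hr] with y hy
  have hy' : D * |y| ≤ 1 / 2 := by
    have h1 : |y| < 1 / (2 * D) := by simpa using hy
    have h2 : D * |y| < D * (1 / (2 * D)) := by gcongr
    have h3 : D * (1 / (2 * D)) = 1 / 2 := by field_simp
    linarith
  have heq : (fun n => y ^ n • p.coeff n) =
      fun n => ((y ^ n / n.factorial : ℝ) : ℂ) * A n x := by
    funext n
    rw [hp n, Complex.real_smul]
    push_cast
    ring
  rw [heq]
  have hsum : Summable (fun n => ((y ^ n / n.factorial : ℝ) : ℂ) * A n x) := by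
    refine Summable.of_norm_bounded (g := fun n => D * (1 / 2 : ℝ) ^ n) ?_ ?_
    · exact (summable_geometric_of_lt_one (by norm_num) (by norm_num)).mul_left D
    · intro n
      rw [norm_mul, Complex.norm_real, norm_div, norm_pow, Real.norm_eq_abs]
      have hf : (0:ℝ) < n.factorial := by positivity
      have h3 : ‖(n.factorial : ℝ)‖ = n.factorial := by
        rw [Real.norm_eq_abs, abs_of_pos hf]
      rw [h3]
      calc |y| ^ n / n.factorial * ‖A n x‖ ≤ |y| ^ n / n.factorial * (D ^ (n + 1) * n.factorial) := by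
            gcongr
            exact hb' n x
        _ = D * (D * |y|) ^ n := by
            rw [mul_pow]
            field_simp
            ring
        _ ≤ D * (1 / 2) ^ n := by
            gcongr
  rw [hsum.hasSum_iff_tendsto_nat]
  rw [← tendsto_add_atTop_iff_nat 1]
  rw [tendsto_iff_norm_sub_tendsto_zero]
  refine squeeze_zero (fun _ => norm_nonneg _) (g := fun n : ℕ => D * ((n + 1) * (1 / 2 : ℝ) ^ (n + 1))) ?_ ?_
  · intro n
    rw [norm_sub_rev]
    refine (taylor_aux A D hD hA hb' x y n).trans ?_
    calc D ^ (n + 2) * (n + 1) * |y| ^ (n + 1) = D * ((n + 1) * (D * |y|) ^ (n + 1)) := by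
          rw [mul_pow, show n + 2 = (n + 1) + 1 from rfl, pow_succ D (n + 1)]
          ring
      _ ≤ D * ((n + 1) * (1 / 2 : ℝ) ^ (n + 1)) := by
          gcongr
  · have h1 : Tendsto (fun n : ℕ => (n : ℝ) * (1 / 2 : ℝ) ^ n) atTop (𝓝 0) :=
      tendsto_self_mul_const_pow_of_lt_one (by norm_num) (by norm_num)
    have h2 := (h1.comp (tendsto_add_atTop_nat 1)).const_mul D
    simpa [Function.comp_def] using h2

end Pool.Agent.Helper61.FT
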