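import Pool.Agent.Helper76.FT.GoalsG

/-!
# The slope bound
-/

set_option autoImplicit false

namespace Pool.Agent.Helper61.FT

open Complex Set Filter Topology
open Pool.Agent.Helper76.FT

/-- the cubic real polynomial -/
noncomputable def E3 (w0 : ℂ) (A B : ℝ) (om : ℂ) : ℂ :=
  (om - w0) * (om - (starRingEnd ℂ) w0) * ((A : ℂ) + (B : ℂ) * om)

lemma E3_self (w0 : ℂ) (A B : ℝ) : E3 w0 A B w0 = 0 := by
  simp [E3]

lemma E3_cont (w0 : ℂ) (A B : ℝ) : Continuous (E3 w0 A B) := by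
  unfold E3
  fun_prop

lemma E3_diff (w0 : ℂ) (A B : ℝ) : Differentiable ℂ (E3 w0 A B) := by
  unfold E3
  fun_prop

lemma E3_deriv (w0 : ℂ) (A B : ℝ) :
    HasDerivAt (E3 w0 A B) ((w0 - (starRingEnd ℂ) w0) * ((A : ℂ) + (B : ℂ) * w0)) w0 := by
  unfold E3
  have h1 : HasDerivAt (fun om : ℂ => om - w0) 1 w0 := (hasDerivAt_id w0).sub_const w0
  have h2 : HasDerivAt (fun om : ℂ => (om - (starRingEnd ℂ) w0)) 1 w0 :=
    (hasDerivAt_id w0).sub_const _
  have h3 : HasDerivAt (fun om : ℂ => (A : ℂ) + (B : ℂ) * om) (B : ℂ) w0 := by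
    simpa using ((hasDerivAt_id w0).const_mul (B : ℂ)).const_add (A : ℂ)
  have h4 := (h1.mul h2).mul h3
  refine h4.congr_deriv ?_
  simp

lemma E3_norm_le (w0 om : ℂ) (A B C₀ : ℝ) (h0 : ‖w0‖ ≤ C₀) (h1 : ‖om‖ ≤ C₀) :
    ‖E3 w0 A B om‖ ≤ 4 * C₀ ^ 2 * (|A| + |B| * C₀) := by
  unfold E3
  have hC : 0 ≤ C₀ := (norm_nonneg _).trans h0
  rw [norm_mul, norm_mul]
  have h2 : ‖om - w0‖ ≤ 2 * C₀ := (norm_sub_le _ _).trans (by linarith)
  have h3 : ‖om - (starRingEnd ℂ) w0‖ ≤ 2 * C₀ := by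
    refine (norm_sub_le _ _).trans ?_
    rw [RCLike.norm_conj]
    linarith
  have h4 : ‖(A : ℂ) + (B : ℂ) * om‖ ≤ |A| + |B| * C₀ := by
    refine (norm_add_le _ _).trans ?_
    rw [norm_mul, Complex.norm_real, Complex.norm_real, Real.norm_eq_abs, Real.norm_eq_abs]
    gcongr
  calc ‖om - w0‖ * ‖om - (starRingEnd ℂ) w0‖ * ‖(A : ℂ) + (B : ℂ) * om‖
      ≤ (2 * C₀) * (2 * C₀) * (|A| + |B| * C₀) := by gcongr
    _ = 4 * C₀ ^ 2 * (|A| + |B| * C₀) := by ring

lemma E3_im_le (w0 om : ℂ) (A B C₀ : ℝ) (h0 : ‖w0‖ ≤ C₀) (h1 : ‖om‖ ≤ C₀) :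
    |(E3 w0 A B om).im| ≤ (4 * C₀ * (|A| + |B| * C₀) + 4 * C₀ ^ 2 * |B|) * |om.im| := by
  have hC : 0 ≤ C₀ := (norm_nonneg _).trans h0
  have h2 : ‖om - w0‖ ≤ 2 * C₀ := (norm_sub_le _ _).trans (by linarith)
  have h3 : ‖om - (starRingEnd ℂ) w0‖ ≤ 2 * C₀ := by
    refine (norm_sub_le _ _).trans ?_
    rw [RCLike.norm_conj]
    linarith
  set N : ℂ := (om - w0) * (om - (starRingEnd ℂ) w0) with hN
  have hNim : N.im = 2 * (om.re - w0.re) * om.im := by
    rw [hN]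
    simp only [Complex.mul_im, Complex.sub_re, Complex.sub_im, Complex.conj_re, Complex.conj_im]
    ring
  have hN1 : |N.re| ≤ 4 * C₀ ^ 2 := by
    refine (Complex.abs_re_le_norm _).trans ?_
    rw [hN, norm_mul]
    calc ‖om - w0‖ * ‖om - (starRingEnd ℂ) w0‖ ≤ (2 * C₀) * (2 * C₀) := by gcongr
      _ = 4 * C₀ ^ 2 := by ring
  have hre : |om.re - w0.re| ≤ 2 * C₀ := by
    have := (Complex.abs_re_le_norm (om - w0)).trans h2
    simpa using this
  have hN2 : |N.im| ≤ 4 * C₀ * |om.im| := by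
    rw [hNim, abs_mul, abs_mul, abs_two]
    calc 2 * |om.re - w0.re| * |om.im| ≤ 2 * (2 * C₀) * |om.im| := by gcongr
      _ = 4 * C₀ * |om.im| := by ring
  have hE : (E3 w0 A B om).im = N.re * (B * om.im) + N.im * (A + B * om.re) := by
    unfold E3
    rw [← hN, Complex.mul_im]
    simp
  have hL : |A + B * om.re| ≤ |A| + |B| * C₀ := by
    refine (abs_add_le _ _).trans ?_
    rw [abs_mul]
    gcongr
    exact (Complex.abs_re_le_norm _).trans h1
  rw [hE]
  calc |N.re * (B * om.im) + N.im * (A + B * om.re)|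
      ≤ |N.re| * (|B| * |om.im|) + |N.im| * |A + B * om.re| := by
        refine (abs_add_le _ _).trans ?_
        rw [abs_mul, abs_mul, abs_mul]
    _ ≤ (4 * C₀ ^ 2) * (|B| * |om.im|) + (4 * C₀ * |om.im|) * (|A| + |B| * C₀) := by gcongr
    _ = (4 * C₀ * (|A| + |B| * C₀) + 4 * C₀ ^ 2 * |B|) * |om.im| := by ring

lemma TH_congr {w : ℂ → ℝ → ℂ} {f g : ℝ × ℝ → ℂ} {z₁ : ℝ × ℝ} (h : TH w f z₁)
    (hfg : ∀ᶠ z in 𝓝 z₁, g z = f z) : TH w g z₁ := by
  obtain ⟨φ, hφ, h1⟩ := h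
  refine ⟨φ, hφ, ?_⟩
  filter_upwards [h1, hfg] with z h2 h3
  rw [h3, h2]

lemma chi_self (w : ℂ → ℝ → ℂ) (z : ℝ × ℝ) : chi w z z = 0 := by
  simp [chi]

lemma Str_open (ρ : ℝ) : IsOpen (Str ρ) := by
  unfold Str
  exact isOpen_lt (by fun_prop) continuous_const

lemma mem_Str_real {ρ : ℝ} (hρ : 0 < ρ) (x : ℝ) : (x : ℂ) ∈ Str ρ := by
  simp [Str, hρ]

theorem ft_slope (_hReg : GReg) (_hChart : GChart) (hOM : GOM) (hSign : GSign) (hTHX : GTHX) :
    GSlope := by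
  intro S hS
  obtain ⟨δ₁, c₀, C₀, hδ₁, hc₀, hC₀, hsgn⟩ := hSign S hS
  set C : ℝ := 32 * C₀ ^ 3 / c₀ + 6 * C₀ ^ 3 + 1 with hCdef
  have hCpos : 0 < C := by positivity
  refine ⟨min δ₁ (S.r / 2), C, lt_min hδ₁ (by have := hS.hr; positivity), hCpos, ?_⟩
  intro δ ρ w c hδ hT q0 t0 ht0
  have hδ1 : δ ≤ δ₁ := hδ.trans (min_le_left _ _)
  have hδ2 : δ < S.r := by
    have h1 := hδ.trans (min_le_right _ _)
    have h2 := hS.hr
    linarith
  by_contra hcon
  rw [not_le] at hcon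
  set w0 : ℂ := w (q0 : ℂ) t0 with hw0
  set H0 : ℝ := w0.im with hH0
  set D : ℂ := dz w (q0 : ℂ) t0 with hD
  have hH0pos : 0 < H0 := (hT.pos q0 t0 ht0).1
  have hDne : D ≠ 0 := by
    intro h
    rw [h, norm_zero, zero_mul] at hcon
    linarith
  have hDpos : 0 < ‖D‖ := norm_pos_iff.2 hDne
  set z0 : ℝ × ℝ := (q0, t0) with hz0
  -- the functions
  set X : ℝ × ℝ → ℂ := XF S w t0 with hX
  set Om : ℝ × ℝ → ℂ := OmF S w with hOm
  have hsg := hsgn δ ρ w c hδ1 hT t0 ht0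
  have hthx := hTHX S hS δ ρ w c hδ2 hT t0 ht0
  have hom := hOM S hS δ ρ w c hT
  obtain ⟨ht0a, ht0b⟩ := ht0
  have hTH0 := hthx z0 (by show -1 < t0; linarith) (by show t0 < 2; linarith)
  have hnear := hTH0.2.2 rfl
  have hz0X : X z0 = q0 := by
    have := hnear.self_of_nhds.1
    rw [chi_self, add_zero] at this
    exact this
  have hz0Om : Om z0 = w0 := by
    have := hnear.self_of_nhds.2
    rw [chi_self, add_zero] at this
    exact this
  have hw0n : ‖w0‖ ≤ C₀ := by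
    have := (hsg z0 (by show -1 ≤ t0; linarith) (by show t0 < 2; linarith)).2.2.2.1
    rwa [← hOm, hz0Om] at this
  have hH0C : H0 ≤ C₀ := by
    refine le_trans (le_abs_self _) ((Complex.abs_im_le_norm _).trans hw0n)
  -- constants
  set κ : ℂ := 1 / (2 * I * H0 * D) with hκ
  have hκn : ‖κ‖ = 1 / (2 * H0 * ‖D‖) := by
    rw [hκ, norm_div, norm_mul, norm_mul, norm_mul, norm_one, Complex.norm_I, Complex.norm_real,
      Real.norm_eq_abs, abs_of_pos hH0pos]
    simp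
  have hκle : ‖κ‖ ≤ H0 / (2 * C) := by
    rw [hκn, div_le_div_iff₀ (by positivity) (by positivity)]
    nlinarith [hcon]
  set B : ℝ := κ.im / H0 with hB
  set A : ℝ := κ.re - B * w0.re with hA
  have hAB : (A : ℂ) + (B : ℂ) * w0 = κ := by
    apply Complex.ext
    · simp [hA]
    · simp only [Complex.add_im, Complex.ofReal_im, Complex.mul_im, Complex.ofReal_re, zero_mul,
        add_zero, zero_add]
      rw [hB, ← hH0]
      field_simp
  have hBle : |B| ≤ 1 / (2 * C) := by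
    rw [hB, abs_div, abs_of_pos hH0pos, div_le_div_iff₀ hH0pos (by positivity), one_mul]
    have h1 := (Complex.abs_im_le_norm κ).trans hκle
    calc |κ.im| * (2 * C) ≤ (H0 / (2 * C)) * (2 * C) := by gcongr
      _ = H0 := by field_simp
  have hAle : |A| ≤ C₀ / C := by
    have h1 : |κ.re| ≤ H0 / (2 * C) := (Complex.abs_re_le_norm κ).trans hκle
    have h2 : |w0.re| ≤ C₀ := (Complex.abs_re_le_norm w0).trans hw0n
    calc |A| ≤ |κ.re| + |B * w0.re| := abs_sub _ _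
      _ = |κ.re| + |B| * |w0.re| := by rw [abs_mul]
      _ ≤ H0 / (2 * C) + 1 / (2 * C) * C₀ := by gcongr
      _ ≤ C₀ / (2 * C) + 1 / (2 * C) * C₀ := by gcongr
      _ = C₀ / C := by field_simp; ring
  have hABle : |A| + |B| * C₀ ≤ 3 * C₀ / (2 * C) := by
    calc |A| + |B| * C₀ ≤ C₀ / C + 1 / (2 * C) * C₀ := by gcongr
      _ = 3 * C₀ / (2 * C) := by field_simp; ring
  have hEim : ∀ om : ℂ, ‖om‖ ≤ C₀ → |(E3 w0 A B om).im| ≤ (8 * C₀ ^ 2 / C) * |om.im| := by
    intro om hom'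
    refine (E3_im_le w0 om A B C₀ hw0n hom').trans ?_
    gcongr
    calc 4 * C₀ * (|A| + |B| * C₀) + 4 * C₀ ^ 2 * |B|
        ≤ 4 * C₀ * (3 * C₀ / (2 * C)) + 4 * C₀ ^ 2 * (1 / (2 * C)) := by gcongr
      _ = 8 * C₀ ^ 2 / C := by field_simp; ring
  have hEn : ∀ om : ℂ, ‖om‖ ≤ C₀ → ‖E3 w0 A B om‖ ≤ 1 := by
    intro om hom'
    refine (E3_norm_le w0 om A B C₀ hw0n hom').trans ?_
    calc 4 * C₀ ^ 2 * (|A| + |B| * C₀) ≤ 4 * C₀ ^ 2 * (3 * C₀ / (2 * C)) := by gcongr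
      _ = 6 * C₀ ^ 3 / C := by field_simp; ring
      _ ≤ 1 := by
          rw [div_le_one hCpos, hCdef]
          have : 0 ≤ 32 * C₀ ^ 3 / c₀ := by positivity
          linarith
  have hCc : 8 * C₀ ^ 2 / C * C₀ ≤ c₀ / 4 := by
    have h1 : 32 * C₀ ^ 3 / c₀ ≤ C := by
      rw [hCdef]
      have : 0 ≤ 6 * C₀ ^ 3 := by positivity
      linarith
    rw [div_le_iff₀ hc₀] at h1
    rw [div_mul_eq_mul_div, div_le_iff₀ hCpos]
    nlinarith
  -- the window
  set Wn : Set (ℝ × ℝ) := {z | |z.2 - t0| < 1 / 2} with hWn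
  have hWopen : IsOpen Wn := by
    rw [hWn]
    exact isOpen_lt (by fun_prop) continuous_const
  have hz0W : z0 ∈ Wn := by
    show |t0 - t0| < 1 / 2
    simp
  have hWin : ∀ z ∈ Wn, -1 < z.2 ∧ z.2 < 2 := by
    intro z hz
    have h1 : |z.2 - t0| < 1 / 2 := hz
    rw [abs_lt] at h1
    constructor <;> linarith [h1.1, h1.2]
  have hwt : ∀ z : ℝ × ℝ, 0 < (wt w z).im := by
    intro z
    exact (hT.pos z.1 (Int.fract z.2) ⟨Int.fract_nonneg _, (Int.fract_lt_one _).le⟩).1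
  have hXim : ∀ z ∈ Wn, c₀ * |z.2 - t0| * (wt w z).im ≤ |(X z).im| := by
    intro z hz
    have h1 := hWin z hz
    have h2 := hsg z h1.1.le h1.2
    rcases le_total z.2 t0 with h | h
    · have h3 := h2.1 h
      rw [abs_of_nonpos (by linarith), neg_sub]
      exact h3.trans (le_abs_self _)
    · have h3 := h2.2.1 h
      rw [abs_of_nonneg (by linarith)]
      have h4 : c₀ * (z.2 - t0) * (wt w z).im ≤ -(X z).im := by linarith
      exact h4.trans (neg_le_abs _)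
  have hOmn : ∀ z ∈ Wn, ‖Om z‖ ≤ C₀ := by
    intro z hz
    have h1 := hWin z hz
    exact (hsg z h1.1.le h1.2).2.2.2.1
  have hOmi : ∀ z ∈ Wn, |(Om z).im| ≤ C₀ * (wt w z).im := by
    intro z hz
    have h1 := hWin z hz
    exact (hsg z h1.1.le h1.2).2.2.1
  have hXn : ∀ z ∈ Wn, ‖X z - z.1‖ ≤ C₀ * |z.2 - t0| := by
    intro z hz
    have h1 := hWin z hz
    exact (hsg z h1.1.le h1.2).2.2.2.2
  -- uniqueness
  have huniq : ∀ z ∈ Wn, X z = q0 → z = z0 := by
    intro z hz h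
    have h1 := hXim z hz
    rw [h, Complex.ofReal_im, abs_zero] at h1
    have h2 : |z.2 - t0| = 0 := by
      by_contra h3
      have h4 : 0 < |z.2 - t0| := lt_of_le_of_ne (abs_nonneg _) (Ne.symm h3)
      have h5 := mul_pos (mul_pos hc₀ h4) (hwt z)
      linarith
    have h3 := hXn z hz
    rw [h2, mul_zero, h] at h3
    have h4 : (q0 : ℂ) - z.1 = 0 := norm_le_zero_iff.1 h3
    have h5 : q0 = z.1 := by
      have := sub_eq_zero.1 h4
      exact_mod_cast this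
    have h6 : z.2 = t0 := by
      have := abs_eq_zero.1 h2
      linarith
    exact Prod.ext h5.symm h6
  -- confinement
  have hconf : ∀ z ∈ Wn, ∀ s : ℝ, 0 ≤ s → s ≤ 1 → X z - q0 = s * E3 w0 A B (Om z) →
      |z.2 - t0| ≤ 1 / 4 ∧ |z.1 - q0| ≤ 1 + C₀ := by
    intro z hz s hs0 hs1 h
    have h1 := hXim z hz
    have h2 : |(X z).im| ≤ (c₀ / 4) * (wt w z).im := by
      have h3 : (X z).im = s * (E3 w0 A B (Om z)).im := by
        have := congrArg Complex.im h
        simpa using this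
      rw [h3, abs_mul, abs_of_nonneg hs0]
      calc s * |(E3 w0 A B (Om z)).im| ≤ 1 * ((8 * C₀ ^ 2 / C) * |(Om z).im|) := by
            gcongr
            exact hEim _ (hOmn z hz)
        _ ≤ 1 * ((8 * C₀ ^ 2 / C) * (C₀ * (wt w z).im)) := by
            gcongr
            exact hOmi z hz
        _ = (8 * C₀ ^ 2 / C * C₀) * (wt w z).im := by ring
        _ ≤ (c₀ / 4) * (wt w z).im := by
            have := (hwt z).le
            gcongr
    have h4 : |z.2 - t0| ≤ 1 / 4 := by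
      have h5 : c₀ * |z.2 - t0| * (wt w z).im ≤ (c₀ / 4) * (wt w z).im := h1.trans h2
      have h6 : c₀ * |z.2 - t0| ≤ c₀ / 4 := le_of_mul_le_mul_right h5 (hwt z)
      by_contra h7
      rw [not_le] at h7
      nlinarith
    refine ⟨h4, ?_⟩
    have h5 : ‖X z - q0‖ ≤ 1 := by
      rw [h, norm_mul, Complex.norm_real, Real.norm_eq_abs, abs_of_nonneg hs0]
      calc s * ‖E3 w0 A B (Om z)‖ ≤ 1 * 1 := by
            gcongr
            exact hEn _ (hOmn z hz)
        _ = 1 := by ring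
    have h6 := hXn z hz
    have h7 : ‖((z.1 - q0 : ℝ) : ℂ)‖ ≤ 1 + C₀ * |z.2 - t0| := by
      have h8 : ((z.1 - q0 : ℝ) : ℂ) = (X z - q0) - (X z - z.1) := by
        push_cast
        ring
      rw [h8]
      exact (norm_sub_le _ _).trans (add_le_add h5 h6)
    rw [Complex.norm_real, Real.norm_eq_abs] at h7
    refine h7.trans ?_
    have : C₀ * |z.2 - t0| ≤ C₀ * 1 := by
      gcongr
      linarith
    linarith
  -- the quotient
  classical
  set Q : ℝ × ℝ → ℂ := fun z => if z = z0 then 1 else (X z - q0) / E3 w0 A B (Om z) with hQ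
  have hQ0 : Q z0 = 1 := by simp [hQ]
  have hQne : ∀ z, z ≠ z0 → Q z = (X z - q0) / E3 w0 A B (Om z) := by
    intro z hz
    simp [hQ, hz]
  have hQeq : ∀ z ∈ Wn, ∀ s : ℝ, 0 < s → Q z = s → X z - q0 = s * E3 w0 A B (Om z) := by
    intro z hz s hs h
    by_cases hzz : z = z0
    · rw [hzz, hz0X, hz0Om, E3_self]
      simp
    · rw [hQne z hzz] at h
      by_cases hE : E3 w0 A B (Om z) = 0
      · rw [hE, div_zero] at h
        exfalso
        have : s = 0 := by exact_mod_cast h.symm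
        linarith
      · rw [div_eq_iff hE] at h
        exact h
  have hEne : ∀ z ∈ Wn, z ≠ z0 → ∀ s : ℝ, X z - q0 = s * E3 w0 A B (Om z) →
      E3 w0 A B (Om z) ≠ 0 := by
    intro z hz hzz s h hE
    rw [hE, mul_zero] at h
    exact hzz (huniq z hz (sub_eq_zero.1 h))
  have hQval : ∀ z ∈ Wn, z ≠ z0 → ∀ s : ℝ, X z - q0 = s * E3 w0 A B (Om z) → Q z = s := by
    intro z hz hzz s h
    rw [hQne z hzz, h, mul_div_assoc, div_self (hEne z hz hzz s h), mul_one]
  -- Q is torus-holomorphic at z0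
  have hTHQ0 : TH w Q z0 := by
    have hwan : AnalyticAt ℂ (fun z => w z t0) (q0 : ℂ) := by
      have h1 : DifferentiableOn ℂ (fun z => w z t0) (Str ρ) := hT.sh.hol t0 ⟨ht0a, ht0b⟩
      exact h1.analyticAt ((Str_open ρ).mem_nhds (mem_Str_real hT.hρ q0))
    set f : ℂ → ℂ := fun ζ => E3 w0 A B (w ((q0 : ℂ) + ζ) t0) with hf
    have hfan : AnalyticAt ℂ f 0 := by
      have h1 : AnalyticAt ℂ (fun ζ : ℂ => (q0 : ℂ) + ζ) 0 := by fun_prop
      have h2 : AnalyticAt ℂ (fun ζ : ℂ => w ((q0 : ℂ) + ζ) t0) 0 := by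
        apply AnalyticAt.fun_comp (g := fun z => w z t0) (f := fun ζ : ℂ => (q0 : ℂ) + ζ)
        · simpa using hwan
        · exact h1
      have h3 : AnalyticAt ℂ (E3 w0 A B) (w ((q0 : ℂ) + 0) t0) :=
        (E3_diff w0 A B).analyticAt _
      exact AnalyticAt.fun_comp h3 h2
    have hf0 : f 0 = 0 := by
      simp only [hf, add_zero]
      rw [← hw0, E3_self]
    have hfd : HasDerivAt f 1 0 := by
      have h1 : HasDerivAt (fun z => w z t0) D (q0 : ℂ) := hwan.differentiableAt.hasDerivAt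
      have h2 : HasDerivAt (fun ζ : ℂ => w ((q0 : ℂ) + ζ) t0) D 0 := by
        have h3 : HasDerivAt (fun z => w z t0) D ((q0 : ℂ) + 0) := by simpa using h1
        exact h3.comp_const_add (q0 : ℂ) 0
      have h4 : HasDerivAt (E3 w0 A B) ((w0 - (starRingEnd ℂ) w0) * ((A : ℂ) + (B : ℂ) * w0))
          (w ((q0 : ℂ) + 0) t0) := by
        rw [add_zero, ← hw0]
        exact E3_deriv w0 A B
      have h5 := h4.comp (0 : ℂ) h2
      refine h5.congr_deriv ?_
      rw [hAB]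
      have h6 : w0 - (starRingEnd ℂ) w0 = 2 * I * H0 := by
        apply Complex.ext
        · simp
        · simp [hH0]; ring
      rw [h6, hκ]
      have hH0c : (H0 : ℂ) ≠ 0 := by exact_mod_cast hH0pos.ne'
      field_simp
    have hgan : AnalyticAt ℂ (dslope f 0) 0 := by
      obtain ⟨p, hp⟩ := hfan
      exact hp.has_fpower_series_dslope_fslope.analyticAt
    have hg0 : dslope f 0 0 = 1 := by
      rw [dslope_same, hfd.deriv]
    refine ⟨fun ζ => (dslope f 0 ζ)⁻¹, hgan.inv (by rw [hg0]; exact one_ne_zero), ?_⟩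
    filter_upwards [hnear, hWopen.mem_nhds hz0W] with z h1 h2
    by_cases hz : z = z0
    · rw [hz, hQ0, chi_self, hg0, inv_one]
    · have hζ : chi w z0 z ≠ 0 := by
        intro h3
        apply hz
        apply huniq z h2
        rw [hX, h1.1, h3, add_zero]
      rw [hQne z hz, dslope_of_ne f hζ, slope_def_field, sub_zero, hf0, sub_zero, inv_div]
      congr 1
      · rw [hX, h1.1]
        simp [hz0]
      · rw [hOm, h1.2]
  -- Q is torus-holomorphic where it takes real positive values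
  have hTHQ : ∀ z ∈ Wn, ∀ s : ℝ, X z - q0 = s * E3 w0 A B (Om z) → TH w Q z := by
    intro z hz s h
    by_cases hzz : z = z0
    · rw [hzz]
      exact hTHQ0
    · have hE := hEne z hz hzz s h
      have h1 := hWin z hz
      have h2 := hthx z h1.1 h1.2
      have h3 := (hom z).2 X Om (fun u => (u.1 - q0) * (E3 w0 A B u.2)⁻¹) {u | E3 w0 A B u.2 ≠ 0}
        (isOpen_ne_fun ((E3_cont w0 A B).comp continuous_snd) continuous_const)
        (by
          apply DifferentiableOn.mul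
          · fun_prop
          · exact ((E3_diff w0 A B).comp differentiable_snd).differentiableOn.inv (fun u hu => hu))
        hE h2.2.1 h2.1
      refine TH_congr h3 ?_
      filter_upwards [isOpen_ne.mem_nhds hzz] with y hy
      rw [hQne y hy, div_eq_mul_inv]
  have hcontX : ∀ z ∈ Wn, ContinuousAt X z := fun z hz =>
    ((hom z).1 X (hthx z (hWin z hz).1 (hWin z hz).2).2.1).2
  have hcontOm : ∀ z ∈ Wn, ContinuousAt Om z := fun z hz =>
    ((hom z).1 Om (hthx z (hWin z hz).1 (hWin z hz).2).1).2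
  -- closure lemma
  have hclos : ∀ (s : ℕ → ℝ) (z : ℕ → ℝ × ℝ) (s' : ℝ) (z' : ℝ × ℝ),
      (∀ n, z n ∈ Wn) → (∀ n, 0 < s n) → (∀ n, Q (z n) = s n) → Tendsto s atTop (𝓝 s') →
      Tendsto z atTop (𝓝 z') → z' ∈ Wn →
      0 < s' ∧ Q z' = s' ∧ X z' - q0 = s' * E3 w0 A B (Om z') := by
    intro s z s' z' hzW hs hQs hst hzt hz'
    have hs'0 : 0 ≤ s' := ge_of_tendsto' hst (fun n => (hs n).le)
    have h1 : X z' - q0 = s' * E3 w0 A B (Om z') := by
      have h2 : Tendsto (fun n => X (z n) - q0) atTop (𝓝 (X z' - q0)) :=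
        ((hcontX z' hz').tendsto.comp hzt).sub_const _
      have h3 : Tendsto (fun n => (s n : ℂ) * E3 w0 A B (Om (z n))) atTop
          (𝓝 ((s' : ℂ) * E3 w0 A B (Om z'))) := by
        apply Tendsto.mul
        · exact (Complex.continuous_ofReal.tendsto s').comp hst
        · exact ((E3_cont w0 A B).tendsto _).comp ((hcontOm z' hz').tendsto.comp hzt)
      refine tendsto_nhds_unique h2 (h3.congr (fun n => ?_))
      exact (hQeq (z n) (hzW n) (s n) (hs n) (hQs n)).symm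
    have h4 : Q z' = s' := by
      by_cases hzz : z' = z0
      · have h5 : ContinuousAt Q z' := by
          rw [hzz]
          exact ((hom z0).1 Q hTHQ0).2
        have h6 : Tendsto (fun n => Q (z n)) atTop (𝓝 (Q z')) := h5.tendsto.comp hzt
        have h7 : Tendsto (fun n => Q (z n)) atTop (𝓝 (s' : ℂ)) := by
          have h8 : Tendsto (fun n => (s n : ℂ)) atTop (𝓝 (s' : ℂ)) :=
            (Complex.continuous_ofReal.tendsto s').comp hst
          exact h8.congr (fun n => (hQs n).symm)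
        exact tendsto_nhds_unique h6 h7
      · exact hQval z' hz' hzz s' h1
    refine ⟨lt_of_le_of_ne hs'0 ?_, h4, h1⟩
    intro h5
    rw [← h5] at h1 h4
    rw [Complex.ofReal_zero, zero_mul] at h1
    have h6 := huniq z' hz' (sub_eq_zero.1 h1)
    rw [h6, hQ0] at h4
    simp at h4
  -- the compact box
  set Kc : Set (ℝ × ℝ) := Icc (q0 - (1 + C₀)) (q0 + (1 + C₀)) ×ˢ Icc (t0 - 1 / 4) (t0 + 1 / 4)
    with hKc
  have hKcomp : IsCompact Kc := isCompact_Icc.prod isCompact_Icc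
  have hKW : Kc ⊆ Wn := by
    intro z hz
    rw [hKc, mem_prod, mem_Icc, mem_Icc] at hz
    show |z.2 - t0| < 1 / 2
    rw [abs_lt]
    constructor <;> linarith [hz.2.1, hz.2.2]
  have hinK : ∀ z ∈ Wn, ∀ s : ℝ, 0 < s → s ≤ 1 → Q z = s → z ∈ Kc := by
    intro z hz s hs0 hs1 h
    have h1 := hconf z hz s hs0.le hs1 (hQeq z hz s hs0 h)
    rw [abs_le, abs_le] at h1
    rw [hKc, mem_prod, mem_Icc, mem_Icc]
    refine ⟨⟨?_, ?_⟩, ⟨?_, ?_⟩⟩
    · linarith [h1.2.1]
    · linarith [h1.2.2]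
    · linarith [h1.1.1]
    · linarith [h1.1.2]
  -- the infimum
  set L : Set ℝ := {s | 0 < s ∧ s ≤ 1 ∧ ∃ z ∈ Wn, Q z = s} with hL
  have h1L : (1 : ℝ) ∈ L := ⟨one_pos, le_rfl, z0, hz0W, by rw [hQ0]; simp⟩
  have hLbdd : BddBelow L := ⟨0, fun s hs => hs.1.le⟩
  obtain ⟨s, -, hslim, hsL⟩ := exists_seq_tendsto_sInf ⟨1, h1L⟩ hLbdd
  set s' : ℝ := sInf L with hs'
  have hs'1 : s' ≤ 1 := csInf_le hLbdd h1L
  choose hs0 hs1 z hzW hQz using hsL
  have hzK : ∀ n, z n ∈ Kc := fun n => hinK (z n) (hzW n) (s n) (hs0 n) (hs1 n) (hQz n)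
  obtain ⟨z', hz'K, φ, hφ, hzlim⟩ := hKcomp.tendsto_subseq hzK
  obtain ⟨hs'0, hQz', hXz'⟩ := hclos (fun n => s (φ n)) (fun n => z (φ n)) s' z'
    (fun n => hzW _) (fun n => hs0 _) (fun n => hQz _) (hslim.comp hφ.tendsto_atTop) hzlim
    (hKW hz'K)
  -- the clopen set
  set Cl : Set (ℝ × ℝ) := {z | z ∈ Wn ∧ Q z = s'} with hCl
  have hClne : z' ∈ Cl := ⟨hKW hz'K, hQz'⟩
  have hClclosed : IsClosed Cl := by
    apply IsSeqClosed.isClosed
    intro y y' hy hyt
    have hyK : ∀ n, y n ∈ Kc := fun n => hinK (y n) (hy n).1 s' hs'0 hs'1 (hy n).2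
    have hy'K : y' ∈ Kc := hKcomp.isClosed.mem_of_tendsto hyt (Eventually.of_forall hyK)
    have h1 := hclos (fun _ => s') y s' y' (fun n => (hy n).1) (fun _ => hs'0)
      (fun n => (hy n).2) tendsto_const_nhds hyt (hKW hy'K)
    exact ⟨hKW hy'K, h1.2.1⟩
  have hClopen : IsOpen Cl := by
    rw [isOpen_iff_mem_nhds]
    intro y hy
    have hTHy : TH w Q y := hTHQ y hy.1 s' (hQeq y hy.1 s' hs'0 hy.2)
    rcases ((hom y).1 Q hTHy).1 with h1 | h1
    · filter_upwards [h1, hWopen.mem_nhds hy.1] with v hv hvW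
      exact ⟨hvW, hv.trans hy.2⟩
    · exfalso
      have h2 : Q '' Wn ∈ 𝓝 (Q y) := h1 (image_mem_map (hWopen.mem_nhds hy.1))
      rw [hy.2, Metric.mem_nhds_iff] at h2
      obtain ⟨ε, hε, h3⟩ := h2
      set s₂ : ℝ := s' - min ε s' / 2 with hs₂
      have hm : 0 < min ε s' := lt_min hε hs'0
      have h4 : (s₂ : ℂ) ∈ Metric.ball (s' : ℂ) ε := by
        rw [Metric.mem_ball, dist_eq_norm, hs₂]
        have h5 : ((s' - min ε s' / 2 : ℝ) : ℂ) - (s' : ℂ) = ((-(min ε s' / 2) : ℝ) : ℂ) := by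
          push_cast
          ring
        rw [h5, Complex.norm_real, Real.norm_eq_abs, abs_neg, abs_of_pos (by positivity)]
        have := min_le_left ε s'
        linarith
      obtain ⟨v, hvW, hvQ⟩ := h3 h4
      have h5 : 0 < s₂ := by
        have := min_le_right ε s'
        rw [hs₂]
        linarith
      have h6 : s₂ ∈ L := ⟨h5, by rw [hs₂]; linarith, v, hvW, hvQ⟩
      have h7 : s' ≤ s₂ := csInf_le hLbdd h6
      rw [hs₂] at h7
      linarith
  have hCluniv : Cl = univ := by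
    rcases isClopen_iff.1 ⟨hClclosed, hClopen⟩ with h | h
    · rw [h] at hClne
      exact absurd hClne (notMem_empty _)
    · exact h
  have h1 : ((q0, t0 + 1) : ℝ × ℝ) ∈ Cl := by
    rw [hCluniv]
    trivial
  have h2 : |t0 + 1 - t0| < 1 / 2 := h1.1
  rw [add_sub_cancel_left, abs_one] at h2
  norm_num at h2

end Pool.Agent.Helper61.FT
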